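import Pool.Agent.H95.Race

set_option autoImplicit false

open Pool.Agent.H95.Race Set

theorem Pool.Agent.Results.MP_cbbafe_pr.TwoExtrema.result :
    ∃ T₁ T₂ : List Bool, T₁ ≠ [] ∧ T₂ ≠ [] ∧ (∃ p ∈ Ioo (0 : ℝ) 1, ∃ q ∈ Ioo (0 : ℝ) 1, W T₁ T₂ p ≠ W T₁ T₂ q) ∧
      ∃ p ∈ Ioo (0 : ℝ) 1, ∃ q ∈ Ioo (0 : ℝ) 1, p ≠ q ∧ IsLocalExtr (W T₁ T₂) p ∧ IsLocalExtr (W T₁ T₂) q :=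
  main
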